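import Mathlib
import Pool.Agent.H30.Sym

set_option autoImplicit false

namespace Pool.Agent.Results.MP_2b78ec_gt.ProjInv

open Pool.Agent.H30.Sym

theorem result (n : ℕ) (H : Submodule ℝ (EuclideanSpace ℝ (Fin n))) (body : Bool)
    (S : Set (EuclideanSpace ℝ (Fin n)) → Set (EuclideanSpace ℝ (Fin n)))
    (hS : ∀ K, InB body K → InB body (S K))
    (mono : ∀ K L, InB body K → InB body L → K ⊆ L → S K ⊆ S L)
    (inv : ∀ x ∈ H, ∀ r s : ℝ, 0 < r → 0 < s → S (cyl H x r s) = cyl H x r s)
    (K : Set (EuclideanSpace ℝ (Fin n))) (hK : InB body K) :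
    H.starProjection '' S K = H.starProjection '' K :=
  proj_inv n H body S hS mono inv K hK

end Pool.Agent.Results.MP_2b78ec_gt.ProjInv
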